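import Mathlib

/-!
The free locally convex space over `X = ℕ ∪ {p}`, `p` a free ultrafilter on `ℕ`.

Main result: `L(X)` is nuclear iff it is multi-Hilbert iff `p` is a rapid P-point.
-/

namespace Pool.Agent.Results.MP_a34ed5_an.NuclearIffRapidPPoint

open Filter Topology Set
open scoped NNReal ENNReal

noncomputable section

/-! ### Definitions -/

/-- The space `X = ℕ ∪ {p}` with the subspace topology from `βℕ`. Here `βℕ` is realised as
Mathlib's space `Ultrafilter ℕ`, in which `ℕ` sits as the principal ultrafilters `pure n`. -/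
abbrev XSpace (p : Ultrafilter ℕ) : Type := {u : Ultrafilter ℕ // u = p ∨ ∃ n : ℕ, u = pure n}

/-- `(L, δ)` is a free (Hausdorff) locally convex space over the topological space `X`:
`L` is a Hausdorff locally convex space over `ℝ`, `δ : X → L` is continuous, and every continuous
map `f` from `X` to a Hausdorff locally convex space `E` extends uniquely along `δ` to a continuous
linear map `L → E`. -/
structure IsFreeLCS (X : Type) [TopologicalSpace X] (L : Type) [AddCommGroup L] [Module ℝ L]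
    [TopologicalSpace L] [IsTopologicalAddGroup L] [ContinuousSMul ℝ L] (δ : X → L) : Prop where
  t2 : T2Space L
  locallyConvex : LocallyConvexSpace ℝ L
  continuous_delta : Continuous δ
  existsUnique_lift : ∀ (E : Type) [AddCommGroup E] [Module ℝ E] [TopologicalSpace E]
    [IsTopologicalAddGroup E] [ContinuousSMul ℝ E] [T2Space E] [LocallyConvexSpace ℝ E]
    (f : X → E), Continuous f → ∃! F : L →L[ℝ] E, ∀ x, F (δ x) = f x

/-- `E` is nuclear in the sense of Grothendieck: for every continuous seminorm `r` there is a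
continuous seminorm `q ≥ r` such that the canonical map `E_q → E_r` is nuclear, that is, of the
form `x ↦ ∑ f_n(x) y_n` (convergence in `E_r`) with functionals `f_n` on `E_q` of norm at most
`a_n`, vectors `y_n` of `E_r`, and `∑ a_n r(y_n) < ∞`. Functionals on `E_q` and vectors of `E_r`
are written as functionals on `E` bounded by a multiple of `q`, and as representatives in `E`. -/
def IsNuclearLCS (E : Type) [AddCommGroup E] [Module ℝ E] [TopologicalSpace E] : Prop :=
  ∀ r : Seminorm ℝ E, Continuous r → ∃ q : Seminorm ℝ E, Continuous q ∧ r ≤ q ∧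
    ∃ (f : ℕ → E →ₗ[ℝ] ℝ) (a : ℕ → ℝ) (y : ℕ → E),
      (∀ n, 0 ≤ a n) ∧ (∀ n x, |f n x| ≤ a n * q x) ∧ Summable (fun n => a n * r (y n)) ∧
      ∀ x, Tendsto (fun N => r (x - ∑ n ∈ Finset.range N, f n x • y n)) atTop (𝓝 0)

/-- A seminorm of the form `x ↦ √⟨x, x⟩` for a positive semidefinite symmetric bilinear form. -/
def IsHilbertSeminorm {E : Type} [AddCommGroup E] [Module ℝ E] (q : Seminorm ℝ E) : Prop :=
  ∃ B : E →ₗ[ℝ] E →ₗ[ℝ] ℝ, (∀ x y, B x y = B y x) ∧ (∀ x, 0 ≤ B x x) ∧
    ∀ x, q x = Real.sqrt (B x x)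

/-- `E` is multi-Hilbert: its topology is generated by a family of Hilbert seminorms. -/
def IsMultiHilbert (E : Type) [AddCommGroup E] [Module ℝ E] [TopologicalSpace E] : Prop :=
  ∃ (ι : Type) (q : SeminormFamily ℝ E ι), (∀ i, IsHilbertSeminorm (q i)) ∧ WithSeminorms q

/-- `p` is a P-point: every countable family of members of `p` has a pseudo-intersection in `p`. -/
def IsPPoint (p : Ultrafilter ℕ) : Prop :=
  ∀ A : ℕ → Set ℕ, (∀ k, A k ∈ p) → ∃ B ∈ p, ∀ k, (B \ A k).Finite

/-- `p` is rapid: for every `f : ℕ → ℕ` there is `B ∈ p` with `|B ∩ [0, f k)| ≤ k` for all `k`. -/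
def IsRapid (p : Ultrafilter ℕ) : Prop :=
  ∀ f : ℕ → ℕ, ∃ B ∈ p, ∀ k, (B ∩ Set.Iio (f k)).ncard ≤ k

/-! ### The space `X` -/

section XS

variable (p : Ultrafilter ℕ)

/-- the isolated point `n` of `X` -/
def pt (n : ℕ) : XSpace p := ⟨pure n, Or.inr ⟨n, rfl⟩⟩

/-- the point `p` of `X` -/
def infPt : XSpace p := ⟨p, Or.inl rfl⟩

variable {p}

theorem XSpace.cases (x : XSpace p) : x = infPt p ∨ ∃ n, x = pt p n := by
  obtain ⟨u, rfl | ⟨n, rfl⟩⟩ := x
  · exact Or.inl rfl
  · exact Or.inr ⟨n, rfl⟩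

theorem pt_injective : Function.Injective (pt p) := by
  intro m n h
  have : (pure m : Ultrafilter ℕ) = pure n := congrArg Subtype.val h
  exact Ultrafilter.pure_injective this

theorem pt_ne_inf (hp : ∀ n, p ≠ pure n) (n : ℕ) : pt p n ≠ infPt p := by
  intro h
  exact hp n (congrArg Subtype.val h).symm

theorem tendsto_pt : Tendsto (pt p) p (𝓝 (infPt p)) := by
  rw [tendsto_subtype_rng]
  exact Ultrafilter.tendsto_pure_self p

theorem continuous_of_tendsto {E : Type*} [TopologicalSpace E]
    (g : XSpace p → E) (h : Tendsto (fun n => g (pt p n)) p (𝓝 (g (infPt p)))) :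
    Continuous g := by
  rw [continuous_iff_continuousAt]
  intro x
  rcases XSpace.cases x with rfl | ⟨n, rfl⟩
  · intro U hU
    have hA : {n | g (pt p n) ∈ U} ∈ p := h hU
    have hopen : IsOpen {x : XSpace p | {n | g (pt p n) ∈ U} ∈ x.1} :=
      (ultrafilter_isOpen_basic _).preimage continuous_subtype_val
    have hmem : infPt p ∈ {x : XSpace p | {n | g (pt p n) ∈ U} ∈ x.1} := hA
    rw [mem_map]
    filter_upwards [hopen.mem_nhds hmem] with y hy
    rcases XSpace.cases y with rfl | ⟨m, rfl⟩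
    · exact (mem_of_mem_nhds hU : g (infPt p) ∈ U)
    · exact (Ultrafilter.mem_pure.1 hy : _)
  · have hopen : IsOpen {x : XSpace p | {n} ∈ x.1} :=
      (ultrafilter_isOpen_basic _).preimage continuous_subtype_val
    by_cases hp : p = pure n
    · -- then `infPt p = pt p n`
      intro U hU
      have hx : infPt p = pt p n := Subtype.ext hp
      rw [← hx] at hU ⊢
      have hA : {n | g (pt p n) ∈ U} ∈ p := h hU
      have hopen : IsOpen {x : XSpace p | {n | g (pt p n) ∈ U} ∈ x.1} :=
        (ultrafilter_isOpen_basic _).preimage continuous_subtype_val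
      have hmem : infPt p ∈ {x : XSpace p | {n | g (pt p n) ∈ U} ∈ x.1} := hA
      rw [mem_map]
      filter_upwards [hopen.mem_nhds hmem] with y hy
      rcases XSpace.cases y with rfl | ⟨m, rfl⟩
      · exact (mem_of_mem_nhds hU : g (infPt p) ∈ U)
      · exact (Ultrafilter.mem_pure.1 hy : _)
    · intro U hU
      rw [mem_map]
      have hmem : pt p n ∈ {x : XSpace p | {n} ∈ x.1} := by
        show ({n} : Set ℕ) ∈ (pure n : Ultrafilter ℕ)
        exact Ultrafilter.mem_pure.2 rfl
      filter_upwards [hopen.mem_nhds hmem] with y hy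
      rcases XSpace.cases y with rfl | ⟨m, rfl⟩
      · exfalso
        apply hp
        have : ({n} : Set ℕ) ∈ p := hy
        exact Ultrafilter.eq_pure_of_finite_mem (Set.finite_singleton n) this |>.elim
          (fun m hm => by
            obtain ⟨hm1, hm2⟩ := hm
            rw [Set.mem_singleton_iff] at hm1
            rw [hm2, hm1])
      · have : m ∈ ({n} : Set ℕ) := Ultrafilter.mem_pure.1 hy
        rw [Set.mem_singleton_iff] at this
        subst this
        exact (mem_of_mem_nhds hU : g (pt p m) ∈ U)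

end XS

/-! ### The weighted `ℓ¹` maps -/

abbrev E1 : Type := lp (fun _ : ℕ => ℝ) 1

theorem E1_sum_le (v : E1) (s : Finset ℕ) : ∑ i ∈ s, |v i| ≤ ‖v‖ := by
  have h := lp.sum_rpow_le_norm_rpow (p := 1) (by norm_num) v s
  simpa using h

theorem E1_norm_single (n : ℕ) (a : ℝ) :
    ‖(lp.single 1 n a : E1)‖ = |a| := by
  rw [lp.norm_single (by norm_num)]
  rfl

/-- the map `n ↦ c n • e_n`, `p ↦ 0` from `X` to `ℓ¹` -/
def gmap (p : Ultrafilter ℕ) (c : ℕ → ℝ) (x : XSpace p) : E1 := by
  classical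
  exact if h : x ≠ infPt p ∧ ∃ n, x = pt p n then lp.single 1 h.2.choose (c h.2.choose) else 0

theorem gmap_inf (p : Ultrafilter ℕ) (c : ℕ → ℝ) : gmap p c (infPt p) = 0 := by
  simp [gmap]

theorem gmap_pt (p : Ultrafilter ℕ) (hp : ∀ n, p ≠ pure n) (c : ℕ → ℝ) (n : ℕ) :
    gmap p c (pt p n) = lp.single 1 n (c n) := by
  have h : pt p n ≠ infPt p ∧ ∃ m, pt p n = pt p m := ⟨pt_ne_inf hp n, n, rfl⟩
  have h2 : h.2.choose = n := pt_injective h.2.choose_spec.symm
  unfold gmap
  rw [dif_pos h, h2]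

theorem gmap_continuous (p : Ultrafilter ℕ) (hp : ∀ n, p ≠ pure n) (c : ℕ → ℝ)
    (hc : Tendsto c p (𝓝 0)) : Continuous (gmap p c) := by
  apply continuous_of_tendsto
  rw [gmap_inf]
  rw [tendsto_zero_iff_norm_tendsto_zero]
  have : (fun n => ‖gmap p c (pt p n)‖) = fun n => |c n| := by
    funext n
    rw [gmap_pt p hp, E1_norm_single]
  rw [this]
  simpa using hc.abs

/-! ### Consequences of the universal property -/

section Free

variable {p : Ultrafilter ℕ} {L : Type} [AddCommGroup L] [Module ℝ L]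
    [TopologicalSpace L] [IsTopologicalAddGroup L] [ContinuousSMul ℝ L] {δ : XSpace p → L}

/-- `L` is spanned by `δ(X)`. -/
theorem span_eq_top (h : IsFreeLCS (XSpace p) L δ) :
    Submodule.span ℝ (Set.range δ) = ⊤ := by
  have := h.t2
  have := h.locallyConvex
  set S := Submodule.span ℝ (Set.range δ) with hS
  let f : XSpace p → S := fun x => ⟨δ x, Submodule.subset_span ⟨x, rfl⟩⟩
  have hf : Continuous f := h.continuous_delta.subtype_mk _
  have : LocallyConvexSpace ℝ S :=
    inferInstance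
  obtain ⟨F, hF, -⟩ := h.existsUnique_lift S f hf
  obtain ⟨G, hG, hGu⟩ := h.existsUnique_lift L δ h.continuous_delta
  have h1 : S.subtypeL.comp F = G := by
    apply hGu
    intro x
    simp [hF, f]
  have h2 : ContinuousLinearMap.id ℝ L = G := by
    apply hGu
    intro x
    rfl
  rw [eq_top_iff]
  intro x _
  have : (S.subtypeL.comp F) x = x := by
    rw [h1, ← h2]; rfl
  rw [← this]
  exact (F x).2

theorem induction_span (h : IsFreeLCS (XSpace p) L δ) {P : L → Prop}
    (hδ : ∀ x, P (δ x)) (h0 : P 0) (hadd : ∀ x y, P x → P y → P (x + y))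
    (hsmul : ∀ (a : ℝ) x, P x → P (a • x)) (x : L) : P x := by
  have hx : x ∈ Submodule.span ℝ (Set.range δ) := by
    rw [span_eq_top h]; trivial
  induction hx using Submodule.span_induction with
  | mem y hy => obtain ⟨z, rfl⟩ := hy; exact hδ z
  | zero => exact h0
  | add y z _ _ h1 h2 => exact hadd y z h1 h2
  | smul a y _ h1 => exact hsmul a y h1

/-- the difference `δ n - δ p` -/
def ev (δ : XSpace p → L) (n : ℕ) : L := δ (pt p n) - δ (infPt p)

theorem exists_Fmap (h : IsFreeLCS (XSpace p) L δ) (hp : ∀ n, p ≠ pure n) (c : ℕ → ℝ)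
    (hc : Tendsto c p (𝓝 0)) : ∃ F : L →L[ℝ] E1,
      (∀ n, F (ev δ n) = lp.single 1 n (c n)) ∧ F (δ (infPt p)) = 0 := by
  obtain ⟨F, hF, -⟩ := h.existsUnique_lift E1 (gmap p c) (gmap_continuous p hp c hc)
  have hF' : ∀ x, F (δ x) = gmap p c x := hF
  refine ⟨F, fun n => ?_, ?_⟩
  · rw [ev, map_sub, hF', hF', gmap_inf, gmap_pt p hp, sub_zero]
  · rw [hF', gmap_inf]

theorem exists_one (h : IsFreeLCS (XSpace p) L δ) : ∃ F : L →L[ℝ] ℝ,
      (∀ n, F (ev δ n) = 0) ∧ F (δ (infPt p)) = 1 := by
  obtain ⟨F, hF, -⟩ := h.existsUnique_lift ℝ (fun _ => 1) continuous_const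
  have hF' : ∀ x, F (δ x) = 1 := hF
  refine ⟨F, fun n => ?_, ?_⟩
  · rw [ev, map_sub, hF', hF', sub_self]
  · rw [hF']

theorem tendsto_seminorm_ev (h : IsFreeLCS (XSpace p) L δ) (r : Seminorm ℝ L)
    (hr : Continuous r) : Tendsto (fun n => r (ev δ n)) p (𝓝 0) := by
  have h1 : Tendsto (fun n => δ (pt p n)) p (𝓝 (δ (infPt p))) :=
    (h.continuous_delta.tendsto _).comp tendsto_pt
  have h2 : Tendsto (fun n => r (δ (pt p n) - δ (infPt p))) p
      (𝓝 (r (δ (infPt p) - δ (infPt p)))) :=
    (hr.tendsto _).comp (h1.sub_const _)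
  simpa [ev] using h2

theorem exists_repr (h : IsFreeLCS (XSpace p) L δ) (x : L) :
    ∃ (v : ℕ →₀ ℝ) (y : ℝ), x = (∑ n ∈ v.support, v n • ev δ n) + y • δ (infPt p) := by
  have key : ∃ (v : ℕ →₀ ℝ) (y : ℝ), x = (v.sum fun n a => a • ev δ n) + y • δ (infPt p) := by
    induction x using induction_span h with
    | hδ x =>
      rcases XSpace.cases x with rfl | ⟨n, rfl⟩
      · exact ⟨0, 1, by simp⟩
      · refine ⟨Finsupp.single n 1, 1, ?_⟩
        rw [Finsupp.sum_single_index (by simp)]
        simp [ev]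
    | h0 => exact ⟨0, 0, by simp⟩
    | hadd x y hx hy =>
      obtain ⟨v, a, rfl⟩ := hx
      obtain ⟨w, b, rfl⟩ := hy
      refine ⟨v + w, a + b, ?_⟩
      rw [Finsupp.sum_add_index' (by simp) (by intro n a b; exact add_smul a b _), add_smul]
      abel
    | hsmul a x hx =>
      obtain ⟨v, b, rfl⟩ := hx
      refine ⟨a • v, a * b, ?_⟩
      rw [Finsupp.sum_smul_index' (by simp), smul_add, mul_smul, Finsupp.smul_sum]
      simp [mul_smul]
  exact key

theorem seminorm_le (h : IsFreeLCS (XSpace p) L δ) (r : Seminorm ℝ L) (d : ℕ → ℝ)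
    (hd : ∀ n, r (ev δ n) ≤ d n) (F : L →L[ℝ] E1)
    (hF : ∀ n, F (ev δ n) = lp.single 1 n (d n)) (hF0 : F (δ (infPt p)) = 0)
    (one : L →L[ℝ] ℝ) (hone : ∀ n, one (ev δ n) = 0) (hone1 : one (δ (infPt p)) = 1) (x : L) :
    r x ≤ ‖F x‖ + |one x| * r (δ (infPt p)) := by
  obtain ⟨v, y, hx⟩ := exists_repr h x
  have hFx : F x = ∑ n ∈ v.support, (lp.single 1 n (v n * d n) : E1) := by
    rw [hx, map_add, map_sum, map_smul, hF0, smul_zero, add_zero]
    refine Finset.sum_congr rfl fun n _ => ?_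
    rw [map_smul, hF, ← lp.single_smul]
    simp
  have hcoord : ∀ m ∈ v.support, |(F x : E1) m| = |v m| * d m := by
    intro m hm
    have hdm : 0 ≤ d m := (apply_nonneg r _).trans (hd m)
    have : (F x : E1) m = v m * d m := by
      rw [hFx]
      rw [lp.coeFn_sum, Finset.sum_apply]
      rw [Finset.sum_eq_single m]
      · rw [lp.single_apply_self]
      · intro b _ hb
        rw [lp.single_apply_ne _ _ _ (Ne.symm hb)]
      · intro hm'; exact absurd hm hm'
    rw [this, abs_mul, abs_of_nonneg hdm]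
  have honex : one x = y := by
    rw [hx, map_add, map_sum, map_smul, hone1]
    rw [Finset.sum_eq_zero]
    · simp
    · intro n _
      rw [map_smul, hone, smul_zero]
  calc r x ≤ r (∑ n ∈ v.support, v n • ev δ n) + r (y • δ (infPt p)) := by
        conv_lhs => rw [hx]
        exact map_add_le_add r _ _
    _ ≤ ∑ n ∈ v.support, r (v n • ev δ n) + r (y • δ (infPt p)) := by
        gcongr
        exact Finset.le_sum_of_subadditive r (map_zero r).le (map_add_le_add r) _ _
    _ = ∑ n ∈ v.support, |v n| * r (ev δ n) + |y| * r (δ (infPt p)) := by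
        simp only [map_smul_eq_mul, Real.norm_eq_abs]
    _ ≤ ∑ n ∈ v.support, |v n| * d n + |y| * r (δ (infPt p)) := by
        gcongr with n hn
        exact hd n
    _ = ∑ n ∈ v.support, |(F x : E1) n| + |one x| * r (δ (infPt p)) := by
        rw [honex]
        congr 1
        exact Finset.sum_congr rfl fun n hn => (hcoord n hn).symm
    _ ≤ ‖F x‖ + |one x| * r (δ (infPt p)) := by
        gcongr
        exact E1_sum_le _ _

/-! ### Semiselectivity -/

/-- The analytic reformulation of rapid P-points. -/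
def SemiSel (p : Ultrafilter ℕ) : Prop :=
  ∀ c : ℕ → ℝ, (∀ n, 0 ≤ c n) → Tendsto c p (𝓝 0) → ∃ A ∈ p, Summable (A.indicator c)

theorem summable_indicator_of_bound {A : Set ℕ} {c : ℕ → ℝ} (hc : ∀ n, 0 ≤ c n) (T : ℝ)
    (h : ∀ S : Finset ℕ, (∀ n ∈ S, n ∈ A) → ∑ n ∈ S, c n ≤ T) : Summable (A.indicator c) := by
  classical
  apply summable_of_sum_le (c := T)
  · intro n
    exact Set.indicator_nonneg (fun _ _ => hc _) _
  · intro S
    have : ∑ n ∈ S, A.indicator c n = ∑ n ∈ S.filter (· ∈ A), c n := by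
      rw [Finset.sum_filter]
      refine Finset.sum_congr rfl fun n _ => ?_
      rw [Set.indicator_apply]
    rw [this]
    apply h
    intro n hn
    exact (Finset.mem_filter.1 hn).2

/-- Nuclearity forces semiselectivity. -/
theorem semiSel_of_nuclear (h : IsFreeLCS (XSpace p) L δ) (hp : ∀ n, p ≠ pure n)
    (hN : IsNuclearLCS L) : SemiSel p := by
  intro c hc0 hc
  obtain ⟨F, hF, hF0⟩ := exists_Fmap h hp c hc
  let r : Seminorm ℝ L := (normSeminorm ℝ E1).comp F.toLinearMap
  have hr : ∀ x, r x = ‖F x‖ := fun x => rfl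
  have hrc : Continuous r := by
    have : (r : L → ℝ) = fun x => ‖F x‖ := by funext x; rfl
    rw [this]
    exact F.continuous.norm
  obtain ⟨q, hqc, hrq, f, a, y, ha, hf, hsum, hlim⟩ := hN r hrc
  have hq := tendsto_seminorm_ev h q hqc
  refine ⟨{n | q (ev δ n) < 1}, hq (Iio_mem_nhds one_pos), ?_⟩
  apply summable_indicator_of_bound hc0 (∑' k, a k * r (y k))
  intro S hS
  -- approximate inequality
  have key : ∀ N : ℕ, ∑ n ∈ S, c n ≤
      ∑ n ∈ S, r (ev δ n - ∑ k ∈ Finset.range N, f k (ev δ n) • y k) + ∑' k, a k * r (y k) := by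
    intro N
    have h1 : ∀ n ∈ S, c n ≤ r (ev δ n - ∑ k ∈ Finset.range N, f k (ev δ n) • y k) +
        ∑ k ∈ Finset.range N, a k * |(F (y k) : E1) n| := by
      intro n hn
      have e1 : c n = (F (ev δ n - ∑ k ∈ Finset.range N, f k (ev δ n) • y k) : E1) n +
          ∑ k ∈ Finset.range N, f k (ev δ n) * (F (y k) : E1) n := by
        rw [map_sub, map_sum, hF]
        rw [lp.coeFn_sub, Pi.sub_apply, lp.coeFn_sum, Finset.sum_apply, lp.single_apply_self]
        have : ∀ k, (F (f k (ev δ n) • y k) : E1) n = f k (ev δ n) * (F (y k) : E1) n := by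
          intro k
          rw [map_smul, lp.coeFn_smul, Pi.smul_apply, smul_eq_mul]
        simp only [this]
        ring
      rw [e1]
      refine add_le_add ?_ (Finset.sum_le_sum fun k hk => ?_)
      · calc (F (ev δ n - ∑ k ∈ Finset.range N, f k (ev δ n) • y k) : E1) n
            ≤ |(F (ev δ n - ∑ k ∈ Finset.range N, f k (ev δ n) • y k) : E1) n| := le_abs_self _
          _ ≤ ‖F (ev δ n - ∑ k ∈ Finset.range N, f k (ev δ n) • y k)‖ := by
              simpa using E1_sum_le (F (ev δ n - ∑ k ∈ Finset.range N, f k (ev δ n) • y k)) {n}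
      · calc f k (ev δ n) * (F (y k) : E1) n ≤ |f k (ev δ n)| * |(F (y k) : E1) n| := by
              rw [← abs_mul]; exact le_abs_self _
          _ ≤ a k * |(F (y k) : E1) n| := by
              gcongr
              calc |f k (ev δ n)| ≤ a k * q (ev δ n) := hf k _
                _ ≤ a k * 1 := by
                  gcongr
                  · exact ha k
                  · exact (hS n hn).le
                _ = a k := mul_one _
    calc ∑ n ∈ S, c n ≤ ∑ n ∈ S, (r (ev δ n - ∑ k ∈ Finset.range N, f k (ev δ n) • y k) +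
        ∑ k ∈ Finset.range N, a k * |(F (y k) : E1) n|) := Finset.sum_le_sum h1
      _ = ∑ n ∈ S, r (ev δ n - ∑ k ∈ Finset.range N, f k (ev δ n) • y k) +
          ∑ k ∈ Finset.range N, a k * ∑ n ∈ S, |(F (y k) : E1) n| := by
        rw [Finset.sum_add_distrib]
        congr 1
        rw [Finset.sum_comm]
        refine Finset.sum_congr rfl fun k _ => ?_
        rw [Finset.mul_sum]
      _ ≤ ∑ n ∈ S, r (ev δ n - ∑ k ∈ Finset.range N, f k (ev δ n) • y k) +
          ∑ k ∈ Finset.range N, a k * r (y k) := by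
        gcongr with k hk
        · exact ha k
        · rw [hr]; exact E1_sum_le _ _
      _ ≤ _ := by
        gcongr
        exact hsum.sum_le_tsum _ fun k _ => mul_nonneg (ha k) (apply_nonneg _ _)
  have hlim2 : Tendsto (fun N => ∑ n ∈ S, r (ev δ n - ∑ k ∈ Finset.range N, f k (ev δ n) • y k) +
      ∑' k, a k * r (y k)) atTop (𝓝 (∑ n ∈ S, (0 : ℝ) + ∑' k, a k * r (y k))) := by
    apply Tendsto.add_const
    exact tendsto_finsetSum _ fun n _ => hlim _
  have := ge_of_tendsto' hlim2 key
  simpa using this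

/-- Choice of signs. -/
theorem exists_signs {E : Type*} [AddCommGroup E] [Module ℝ E] (B : E →ₗ[ℝ] E →ₗ[ℝ] ℝ)
    (hsymm : ∀ x y, B x y = B y x) (v : ℕ → E) (S : Finset ℕ) :
    ∃ ε : ℕ → ℝ, (∀ n, |ε n| = 1) ∧
      B (∑ n ∈ S, ε n • v n) (∑ n ∈ S, ε n • v n) ≤ ∑ n ∈ S, B (v n) (v n) := by
  classical
  induction S using Finset.induction_on with
  | empty => exact ⟨fun _ => 1, by simp, by simp⟩
  | insert m S hm ih =>
    obtain ⟨ε, hε, hle⟩ := ih
    set w := ∑ n ∈ S, ε n • v n with hw
    -- sign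
    obtain ⟨s, hs, hs2⟩ : ∃ s : ℝ, |s| = 1 ∧ s * B w (v m) ≤ 0 := by
      by_cases hB : 0 ≤ B w (v m)
      · exact ⟨-1, by simp, by linarith⟩
      · exact ⟨1, by simp, by linarith⟩
    refine ⟨Function.update ε m s, ?_, ?_⟩
    · intro n
      by_cases hn : n = m
      · subst hn; simpa using hs
      · simpa [Function.update_of_ne hn] using hε n
    · have hsum : ∑ n ∈ S, Function.update ε m s n • v n = w := by
        rw [hw]
        refine Finset.sum_congr rfl fun n hn => ?_
        have : n ≠ m := fun h => hm (h ▸ hn)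
        rw [Function.update_of_ne this]
      rw [Finset.sum_insert hm, Finset.sum_insert hm, hsum, Function.update_self]
      have hs3 : s * s = 1 := by
        have := abs_mul_abs_self s
        rw [hs] at this; linarith
      have : B (s • v m + w) (s • v m + w) = B (v m) (v m) + 2 * (s * B w (v m)) + B w w := by
        simp only [map_add, map_smul, LinearMap.add_apply, LinearMap.smul_apply, smul_eq_mul]
        rw [hsymm (v m) w]
        linear_combination (B (v m) (v m)) * hs3
      rw [this]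
      linarith

theorem tendsto_sqrt_zero {c : ℕ → ℝ} {l : Filter ℕ} (hc : Tendsto c l (𝓝 0)) :
    Tendsto (fun n => Real.sqrt (c n)) l (𝓝 0) := by
  have := (Real.continuous_sqrt.tendsto 0).comp hc
  rw [Real.sqrt_zero] at this
  exact this

/-- Multi-Hilbert spaces `L(X)` force semiselectivity. -/
theorem semiSel_of_multiHilbert (h : IsFreeLCS (XSpace p) L δ) (hp : ∀ n, p ≠ pure n)
    (hN : IsMultiHilbert L) : SemiSel p := by
  classical
  -- it is enough to treat squares
  suffices H : ∀ c : ℕ → ℝ, (∀ n, 0 ≤ c n) → Tendsto c p (𝓝 0) →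
      ∃ A ∈ p, Summable (A.indicator fun n => c n ^ 2) by
    intro c hc0 hc
    obtain ⟨A, hA, hsum⟩ := H (fun n => Real.sqrt (c n)) (fun n => Real.sqrt_nonneg _)
      (tendsto_sqrt_zero hc)
    refine ⟨A, hA, ?_⟩
    have : (fun n => Real.sqrt (c n) ^ 2) = c := by
      funext n; exact Real.sq_sqrt (hc0 n)
    rwa [this] at hsum
  intro c hc0 hc
  obtain ⟨ι, Q, hQ, hQw⟩ := hN
  obtain ⟨F, hF, hF0⟩ := exists_Fmap h hp c hc
  let r : Seminorm ℝ L := (normSeminorm ℝ E1).comp F.toLinearMap
  have hr : ∀ x, r x = ‖F x‖ := fun x => rfl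
  have hrc : Continuous r := by
    have : (r : L → ℝ) = fun x => ‖F x‖ := by funext x; rfl
    rw [this]
    exact F.continuous.norm
  obtain ⟨s, C, -, hle⟩ := Seminorm.bound_of_continuous hQw r hrc
  choose B hBsymm hBnonneg hBq using hQ
  -- the sum of the forms
  let BB : L →ₗ[ℝ] L →ₗ[ℝ] ℝ := ∑ i ∈ s, B i
  have hBB : ∀ x y, BB x y = ∑ i ∈ s, B i x y := by
    intro x y
    simp [BB, LinearMap.sum_apply]
  have hBBsymm : ∀ x y, BB x y = BB y x := by
    intro x y
    rw [hBB, hBB]
    exact Finset.sum_congr rfl fun i _ => hBsymm i x y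
  have hsup : ∀ x, (s.sup Q) x ≤ Real.sqrt (BB x x) := by
    intro x
    apply Seminorm.finset_sup_apply_le (Real.sqrt_nonneg _)
    intro i hi
    rw [hBq, hBB]
    apply Real.sqrt_le_sqrt
    exact Finset.single_le_sum (f := fun i => B i x x) (fun i _ => hBnonneg i x) hi
  have hQc : ∀ i, Continuous (Q i) := fun i => hQw.continuous_seminorm i
  have hBlim : Tendsto (fun n => BB (ev δ n) (ev δ n)) p (𝓝 0) := by
    have h1 : (fun n => BB (ev δ n) (ev δ n)) = fun n => ∑ i ∈ s, (Q i (ev δ n)) ^ 2 := by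
      funext n
      rw [hBB]
      refine Finset.sum_congr rfl fun i _ => ?_
      rw [hBq, Real.sq_sqrt (hBnonneg i _)]
    rw [h1]
    have : (0 : ℝ) = ∑ i ∈ s, (0 : ℝ) ^ 2 := by simp
    rw [this]
    exact tendsto_finsetSum _ fun i _ => (tendsto_seminorm_ev h (Q i) (hQc i)).pow 2
  refine ⟨{n | BB (ev δ n) (ev δ n) < 1}, hBlim (Iio_mem_nhds one_pos), ?_⟩
  apply summable_indicator_of_bound (fun n => sq_nonneg _) ((C : ℝ) ^ 2)
  intro S hS
  obtain ⟨ε, hε, hle2⟩ := exists_signs BB hBBsymm (fun n => c n • ev δ n) S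
  set w := ∑ n ∈ S, ε n • c n • ev δ n with hw
  have hFw : ∑ n ∈ S, c n ^ 2 ≤ ‖F w‖ := by
    have hFx : F w = ∑ n ∈ S, (lp.single 1 n (ε n * c n * c n) : E1) := by
      rw [hw, map_sum]
      refine Finset.sum_congr rfl fun n _ => ?_
      rw [map_smul, map_smul, hF, ← lp.single_smul, ← lp.single_smul]
      simp [mul_assoc]
    have hcoord : ∀ m ∈ S, |(F w : E1) m| = c m ^ 2 := by
      intro m hm
      have : (F w : E1) m = ε m * c m * c m := by
        rw [hFx]
        rw [lp.coeFn_sum, Finset.sum_apply]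
        rw [Finset.sum_eq_single m]
        · rw [lp.single_apply_self]
        · intro b _ hb
          rw [lp.single_apply_ne _ _ _ (Ne.symm hb)]
        · intro hm'; exact absurd hm hm'
      rw [this, abs_mul, abs_mul, hε, abs_of_nonneg (hc0 m)]
      ring
    calc ∑ n ∈ S, c n ^ 2 = ∑ n ∈ S, |(F w : E1) n| :=
          Finset.sum_congr rfl fun n hn => (hcoord n hn).symm
      _ ≤ ‖F w‖ := E1_sum_le _ _
  set t := ∑ n ∈ S, c n ^ 2 with ht
  have ht0 : 0 ≤ t := Finset.sum_nonneg fun n _ => sq_nonneg _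
  have h3 : BB w w ≤ t := by
    refine hle2.trans ?_
    rw [ht]
    refine Finset.sum_le_sum fun n hn => ?_
    have : BB (c n • ev δ n) (c n • ev δ n) = c n ^ 2 * BB (ev δ n) (ev δ n) := by
      simp only [map_smul, LinearMap.smul_apply, smul_eq_mul]
      ring
    rw [this]
    have h4 : BB (ev δ n) (ev δ n) ≤ 1 := (hS n hn).le
    nlinarith [sq_nonneg (c n)]
  have h5 : t ≤ C * Real.sqrt t := by
    calc t ≤ r w := hFw
      _ ≤ (C • s.sup Q) w := hle w
      _ = C * (s.sup Q) w := rfl
      _ ≤ C * Real.sqrt (BB w w) := by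
        gcongr
        exact hsup w
      _ ≤ C * Real.sqrt t := by
        gcongr
  by_contra hcon
  push Not at hcon
  have h6 : (C : ℝ) < Real.sqrt t := by
    apply Real.lt_sqrt_of_sq_lt hcon
  have h7 : C * Real.sqrt t < t := by
    calc C * Real.sqrt t < Real.sqrt t * Real.sqrt t := by
          apply mul_lt_mul_of_pos_right h6
          exact lt_of_le_of_lt C.2 h6
      _ = t := Real.mul_self_sqrt ht0
  linarith

/-- Semiselectivity implies nuclearity. -/
theorem nuclear_of_semiSel (h : IsFreeLCS (XSpace p) L δ) (hp : ∀ n, p ≠ pure n)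
    (hS : SemiSel p) : IsNuclearLCS L := by
  classical
  intro r hr
  set c : ℕ → ℝ := fun n => r (ev δ n) with hcdef
  have hc0 : ∀ n, 0 ≤ c n := fun n => apply_nonneg r _
  have hc : Tendsto c p (𝓝 0) := tendsto_seminorm_ev h r hr
  obtain ⟨A, hA, hsum⟩ := hS (fun n => Real.sqrt (c n)) (fun n => Real.sqrt_nonneg _)
    (tendsto_sqrt_zero hc)
  set d : ℕ → ℝ := fun n => if n ∈ A then max (c n) (Real.sqrt (c n)) else 2 ^ n * c n with hd
  have hcd : ∀ n, c n ≤ d n := by
    intro n
    by_cases hn : n ∈ A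
    · simp [hd, hn]
    · simp only [hd, hn, if_false]
      have : (1 : ℝ) ≤ 2 ^ n := one_le_pow₀ (by norm_num)
      nlinarith [hc0 n]
  have hd0 : ∀ n, 0 ≤ d n := fun n => (hc0 n).trans (hcd n)
  have hdlim : Tendsto d p (𝓝 0) := by
    have h1 : Tendsto (fun n => max (c n) (Real.sqrt (c n))) p (𝓝 0) := by
      have := hc.max ((Real.continuous_sqrt.tendsto 0).comp hc)
      simpa using this
    refine h1.congr' ?_
    filter_upwards [hA] with n hn
    have : n ∈ A := hn
    simp [hd, this]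
  obtain ⟨F, hF, hF0⟩ := exists_Fmap h hp d hdlim
  obtain ⟨one, hone, hone1⟩ := exists_one h
  -- the seminorm q
  let q1 : Seminorm ℝ L := (normSeminorm ℝ E1).comp F.toLinearMap
  let q2 : Seminorm ℝ L := (normSeminorm ℝ ℝ).comp one.toLinearMap
  let M : ℝ≥0 := 1 + ⟨r (δ (infPt p)), apply_nonneg _ _⟩
  let q : Seminorm ℝ L := q1 + M • q2
  have hq : ∀ x, q x = ‖F x‖ + (1 + r (δ (infPt p))) * |one x| := by
    intro x
    rfl
  have hqc : Continuous q := by
    have : (q : L → ℝ) = fun x => ‖F x‖ + (1 + r (δ (infPt p))) * |one x| := by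
      funext x; exact hq x
    rw [this]
    exact F.continuous.norm.add (continuous_const.mul one.continuous.abs)
  have hr0 : 0 ≤ r (δ (infPt p)) := apply_nonneg _ _
  refine ⟨q, hqc, ?_, ?_⟩
  · intro x
    have := seminorm_le h r d hcd F hF hF0 one hone hone1 x
    refine this.trans ?_
    rw [hq]
    nlinarith [abs_nonneg (one x)]
  -- the coordinate functionals
  let φ : ℕ → L →ₗ[ℝ] ℝ := fun n =>
    (d n)⁻¹ • ({ toFun := fun v : E1 => v n, map_add' := fun v w => rfl,
                 map_smul' := fun a v => rfl } : E1 →ₗ[ℝ] ℝ).comp F.toLinearMap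
  have hφ : ∀ n x, φ n x = (d n)⁻¹ * (F x : E1) n := fun n x => rfl
  let f : ℕ → L →ₗ[ℝ] ℝ := fun n => Nat.casesOn n one.toLinearMap φ
  let a : ℕ → ℝ := fun n => Nat.casesOn n 1 (fun m => (d m)⁻¹)
  let y : ℕ → L := fun n => Nat.casesOn n (δ (infPt p)) (ev δ)
  refine ⟨f, a, y, ?_, ?_, ?_, ?_⟩
  · intro n
    cases n with
    | zero => exact zero_le_one
    | succ m => exact inv_nonneg.2 (hd0 m)
  · intro n x
    cases n with
    | zero =>
      show |one x| ≤ 1 * q x
      rw [hq, one_mul]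
      nlinarith [norm_nonneg (F x), abs_nonneg (one x), mul_nonneg hr0 (abs_nonneg (one x))]
    | succ m =>
      show |φ m x| ≤ (d m)⁻¹ * q x
      rw [hφ, hq, abs_mul, abs_of_nonneg (inv_nonneg.2 (hd0 m))]
      apply mul_le_mul_of_nonneg_left _ (inv_nonneg.2 (hd0 m))
      have h1 : |(F x : E1) m| ≤ ‖F x‖ := by
        simpa using E1_sum_le (F x) {m}
      have h2 : 0 ≤ (1 + r (δ (infPt p))) * |one x| :=
        mul_nonneg (by linarith) (abs_nonneg _)
      linarith
  · rw [← summable_nat_add_iff 1]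
    show Summable fun m => (d m)⁻¹ * r (ev δ m)
    have hb : Summable fun m => (A.indicator (fun n => Real.sqrt (c n)) m) + (1/2 : ℝ) ^ m :=
      hsum.add (summable_geometric_of_lt_one (by norm_num) (by norm_num))
    refine Summable.of_nonneg_of_le (fun m => mul_nonneg (inv_nonneg.2 (hd0 m)) (hc0 m))
      (fun m => ?_) hb
    show (d m)⁻¹ * c m ≤ _
    rcases (hc0 m).eq_or_lt with h0 | h0
    · rw [← h0, mul_zero]
      exact add_nonneg (Set.indicator_nonneg (fun _ _ => Real.sqrt_nonneg _) _) (by positivity)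
    · have hdpos : 0 < d m := h0.trans_le (hcd m)
      by_cases hm : m ∈ A
      · have h1 : Real.sqrt (c m) ≤ d m := by simp [hd, hm]
        have h2 : (d m)⁻¹ * c m ≤ Real.sqrt (c m) := by
          rw [inv_mul_le_iff₀ hdpos]
          calc c m = Real.sqrt (c m) * Real.sqrt (c m) := (Real.mul_self_sqrt (hc0 m)).symm
            _ ≤ d m * Real.sqrt (c m) := by
              gcongr
        rw [Set.indicator_of_mem hm]
        have : (0 : ℝ) ≤ (1/2) ^ m := by positivity
        linarith
      · have h1 : d m = 2 ^ m * c m := by simp [hd, hm]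
        rw [Set.indicator_of_notMem hm, h1, zero_add]
        rw [mul_inv, mul_assoc, inv_mul_cancel₀ h0.ne', mul_one]
        simp
  · -- convergence of the expansion
    have hsplit : ∀ x N, ∑ n ∈ Finset.range (N + 1), f n x • y n =
        ∑ m ∈ Finset.range N, φ m x • ev δ m + one x • δ (infPt p) := by
      intro x N
      rw [Finset.sum_range_succ']
      rfl
    have hsplit' : ∀ x, Tendsto (fun N => r (x - ∑ n ∈ Finset.range (N + 1), f n x • y n))
        atTop (𝓝 0) → Tendsto (fun N => r (x - ∑ n ∈ Finset.range N, f n x • y n))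
        atTop (𝓝 0) := fun x hx =>
      (tendsto_add_atTop_iff_nat (f := fun N => r (x - ∑ n ∈ Finset.range N, f n x • y n)) 1).1 hx
    have hadd : ∀ x z, Tendsto (fun N => r (x - ∑ n ∈ Finset.range N, f n x • y n)) atTop (𝓝 0) →
        Tendsto (fun N => r (z - ∑ n ∈ Finset.range N, f n z • y n)) atTop (𝓝 0) →
        Tendsto (fun N => r ((x + z) - ∑ n ∈ Finset.range N, f n (x + z) • y n)) atTop (𝓝 0) := by
      intro x z hx hz
      have h1 := hx.add hz
      rw [add_zero] at h1
      refine squeeze_zero (fun N => apply_nonneg _ _) (fun N => ?_) h1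
      have : (x + z) - ∑ n ∈ Finset.range N, f n (x + z) • y n =
          (x - ∑ n ∈ Finset.range N, f n x • y n) + (z - ∑ n ∈ Finset.range N, f n z • y n) := by
        simp only [map_add, add_smul, Finset.sum_add_distrib]
        abel
      rw [this]
      exact map_add_le_add r _ _
    have hP1 : Tendsto (fun N => r (δ (infPt p) - ∑ n ∈ Finset.range N, f n (δ (infPt p)) • y n))
        atTop (𝓝 0) := by
      apply hsplit'
      have : ∀ N, r (δ (infPt p) - ∑ n ∈ Finset.range (N + 1), f n (δ (infPt p)) • y n) = 0 := by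
        intro N
        rw [hsplit, hone1, one_smul, Finset.sum_eq_zero]
        · simp
        · intro m _
          rw [hφ, hF0]
          simp
      simp only [this]
      exact tendsto_const_nhds
    have hP2 : ∀ k, Tendsto (fun N => r (ev δ k - ∑ n ∈ Finset.range N, f n (ev δ k) • y n))
        atTop (𝓝 0) := by
      intro k
      apply hsplit'
      refine tendsto_const_nhds.congr' ?_
      filter_upwards [eventually_gt_atTop k] with N hN
      rw [hsplit, hone, zero_smul, add_zero, Finset.sum_eq_single k]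
      · rw [hφ, hF, lp.single_apply_self]
        by_cases hdk : d k = 0
        · have : c k = 0 := le_antisymm (hdk ▸ hcd k) (hc0 k)
          have h2 : r (ev δ k) = 0 := this
          rw [hdk]
          simp [h2]
        · rw [inv_mul_cancel₀ hdk, one_smul, sub_self, map_zero]
      · intro m _ hm
        rw [hφ, hF, lp.single_apply_ne _ _ _ hm]
        simp
      · intro hk
        exact absurd (Finset.mem_range.2 hN) hk
    intro x
    induction x using induction_span h with
    | hδ x =>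
      rcases XSpace.cases x with rfl | ⟨n, rfl⟩
      · exact hP1
      · have := hadd _ _ (hP2 n) hP1
        have e : ev δ n + δ (infPt p) = δ (pt p n) := by simp [ev]
        rwa [e] at this
    | h0 => simp
    | hadd x y hx hy => exact hadd x y hx hy
    | hsmul b x hx =>
      have h1 := hx.const_mul ‖b‖
      rw [mul_zero] at h1
      refine h1.congr fun N => ?_
      rw [← map_smul_eq_mul, smul_sub, Finset.smul_sum]
      simp only [map_smul, smul_smul, smul_eq_mul]

/-! #### Hilbert seminorms -/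

abbrev E2 : Type := lp (fun _ : ℕ => ℝ) 2

theorem E2_norm_single (n : ℕ) (a : ℝ) :
    ‖(lp.single 2 n a : E2)‖ = |a| := by
  rw [lp.norm_single (by norm_num)]
  rfl

/-- the map `n ↦ e_0 + c n • e_{n+1}`, `p ↦ e_0` from `X` to `ℓ²` -/
def hmap (p : Ultrafilter ℕ) (c : ℕ → ℝ) (x : XSpace p) : E2 := by
  classical
  exact lp.single 2 0 1 + if h : x ≠ infPt p ∧ ∃ n, x = pt p n then
    lp.single 2 (h.2.choose + 1) (c h.2.choose) else 0

theorem hmap_inf (p : Ultrafilter ℕ) (c : ℕ → ℝ) : hmap p c (infPt p) = lp.single 2 0 1 := by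
  simp [hmap]

theorem hmap_pt (p : Ultrafilter ℕ) (hp : ∀ n, p ≠ pure n) (c : ℕ → ℝ) (n : ℕ) :
    hmap p c (pt p n) = lp.single 2 0 1 + lp.single 2 (n + 1) (c n) := by
  have h : pt p n ≠ infPt p ∧ ∃ m, pt p n = pt p m := ⟨pt_ne_inf hp n, n, rfl⟩
  have h2 : h.2.choose = n := pt_injective h.2.choose_spec.symm
  unfold hmap
  rw [dif_pos h, h2]

theorem hmap_continuous (p : Ultrafilter ℕ) (hp : ∀ n, p ≠ pure n) (c : ℕ → ℝ)
    (hc : Tendsto c p (𝓝 0)) : Continuous (hmap p c) := by
  apply continuous_of_tendsto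
  rw [hmap_inf]
  rw [tendsto_iff_norm_sub_tendsto_zero]
  have : (fun n => ‖hmap p c (pt p n) - lp.single 2 0 1‖) = fun n => |c n| := by
    funext n
    rw [hmap_pt p hp, add_sub_cancel_left, E2_norm_single]
  rw [this]
  simpa using hc.abs

/-- If `p` is semiselective, every continuous seminorm is dominated by a continuous
Hilbert seminorm. -/
theorem exists_hilbert_ge (h : IsFreeLCS (XSpace p) L δ) (hp : ∀ n, p ≠ pure n)
    (hS : SemiSel p) (r : Seminorm ℝ L) (hr : Continuous r) :
    ∃ q : Seminorm ℝ L, Continuous q ∧ IsHilbertSeminorm q ∧ r ≤ q := by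
  classical
  set c : ℕ → ℝ := fun n => r (ev δ n) with hcdef
  have hc0 : ∀ n, 0 ≤ c n := fun n => apply_nonneg r _
  have hc : Tendsto c p (𝓝 0) := tendsto_seminorm_ev h r hr
  obtain ⟨A, hA, hsum⟩ := hS c hc0 hc
  set b : ℕ → ℝ := fun n => if n ∈ A then Real.sqrt (c n) else 2 ^ n * c n with hb
  set a : ℕ → ℝ := fun n => if n ∈ A then Real.sqrt (c n) else (1/2) ^ n with ha
  have hb0 : ∀ n, 0 ≤ b n := by
    intro n
    by_cases hn : n ∈ A
    · simp only [hb, hn, if_true]; exact Real.sqrt_nonneg _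
    · simp only [hb, hn, if_false]; exact mul_nonneg (by positivity) (hc0 n)
  have hcab : ∀ n, c n = a n * b n := by
    intro n
    by_cases hn : n ∈ A
    · simp only [ha, hb, hn, if_true]; exact (Real.mul_self_sqrt (hc0 n)).symm
    · simp only [ha, hb, hn, if_false]
      rw [← mul_assoc, ← mul_pow]
      norm_num
  have ha2 : Summable fun n => a n ^ 2 := by
    have h1 : Summable fun m => (A.indicator c m) + ((1/2 : ℝ) ^ m) ^ 2 := by
      apply hsum.add
      have : (fun m : ℕ => ((1/2 : ℝ) ^ m) ^ 2) = fun m => (1/4 : ℝ) ^ m := by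
        funext m
        rw [← pow_mul, mul_comm, pow_mul]
        norm_num
      rw [this]
      exact summable_geometric_of_lt_one (by norm_num) (by norm_num)
    refine Summable.of_nonneg_of_le (fun m => sq_nonneg _) (fun m => ?_) h1
    by_cases hm : m ∈ A
    · simp only [ha, hm, if_true, Set.indicator_of_mem]
      rw [Real.sq_sqrt (hc0 m)]
      have : (0 : ℝ) ≤ ((1/2) ^ m) ^ 2 := by positivity
      linarith
    · simp only [ha, hm, if_false, Set.indicator_of_notMem, not_false_iff]
      linarith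
  have hblim : Tendsto b p (𝓝 0) := by
    refine (tendsto_sqrt_zero hc).congr' ?_
    filter_upwards [hA] with n hn
    have : n ∈ A := hn
    simp [hb, this]
  obtain ⟨G, hG, -⟩ := h.existsUnique_lift E2 (hmap p b) (hmap_continuous p hp b hblim)
  have hG' : ∀ x, G (δ x) = hmap p b x := hG
  have hGinf : G (δ (infPt p)) = lp.single 2 0 1 := by rw [hG', hmap_inf]
  have hGev : ∀ n, G (ev δ n) = lp.single 2 (n + 1) (b n) := by
    intro n
    rw [ev, map_sub, hG', hG', hmap_inf, hmap_pt p hp, add_sub_cancel_left]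
  have hr0 : 0 ≤ r (δ (infPt p)) := apply_nonneg _ _
  set M : ℝ := Real.sqrt (∑' n, a n ^ 2) + r (δ (infPt p)) with hM
  have hM0 : 0 ≤ M := add_nonneg (Real.sqrt_nonneg _) hr0
  -- the main estimate
  have hest : ∀ x, r x ≤ M * ‖G x‖ := by
    intro x
    obtain ⟨v, y, hx⟩ := exists_repr h x
    have hGx : G x = ∑ n ∈ v.support, (lp.single 2 (n + 1) (v n * b n) : E2) +
        lp.single 2 0 y := by
      rw [hx, map_add, map_sum, map_smul, hGinf, ← lp.single_smul]
      congr 1
      · refine Finset.sum_congr rfl fun n _ => ?_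
        rw [map_smul, hGev, ← lp.single_smul]
        simp
      · simp
    have hcoord0 : (G x : E2) 0 = y := by
      rw [hGx, lp.coeFn_add, Pi.add_apply, lp.coeFn_sum, Finset.sum_apply,
        lp.single_apply_self, Finset.sum_eq_zero, zero_add]
      intro n _
      rw [lp.single_apply_ne _ _ _ (Nat.succ_ne_zero n).symm]
    have hcoord : ∀ m ∈ v.support, (G x : E2) (m + 1) = v m * b m := by
      intro m hm
      rw [hGx, lp.coeFn_add, Pi.add_apply, lp.coeFn_sum, Finset.sum_apply,
        lp.single_apply_ne _ _ _ (Nat.succ_ne_zero m), add_zero, Finset.sum_eq_single m]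
      · rw [lp.single_apply_self]
      · intro k _ hk
        rw [lp.single_apply_ne _ _ _ (by omega)]
      · intro hm'; exact absurd hm hm'
    have hy : |y| ≤ ‖G x‖ := by
      have := lp.norm_apply_le_norm (p := 2) (by norm_num) (G x) 0
      rwa [hcoord0, Real.norm_eq_abs] at this
    have hsq : Real.sqrt (∑ n ∈ v.support, (|v n| * b n) ^ 2) ≤ ‖G x‖ := by
      apply Real.sqrt_le_iff.2 ⟨norm_nonneg _, ?_⟩
      have h1 := lp.sum_rpow_le_norm_rpow (p := 2) (by norm_num) (G x)
        (v.support.map ⟨fun n => n + 1, fun a b h => by simpa using h⟩)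
      rw [Finset.sum_map] at h1
      simp only [ENNReal.toReal_ofNat, Real.rpow_ofNat] at h1
      refine le_trans (le_of_eq ?_) h1
      refine Finset.sum_congr rfl fun n hn => ?_
      show (|v n| * b n) ^ 2 = ‖(G x : E2) (n + 1)‖ ^ 2
      rw [hcoord n hn, Real.norm_eq_abs, abs_mul, abs_of_nonneg (hb0 n)]
    calc r x ≤ r (∑ n ∈ v.support, v n • ev δ n) + r (y • δ (infPt p)) := by
          conv_lhs => rw [hx]
          exact map_add_le_add r _ _
      _ ≤ ∑ n ∈ v.support, r (v n • ev δ n) + r (y • δ (infPt p)) := by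
          gcongr
          exact Finset.le_sum_of_subadditive r (map_zero r).le (map_add_le_add r) _ _
      _ = ∑ n ∈ v.support, a n * (|v n| * b n) + |y| * r (δ (infPt p)) := by
          simp only [map_smul_eq_mul, Real.norm_eq_abs]
          congr 1
          refine Finset.sum_congr rfl fun n _ => ?_
          have : r (ev δ n) = a n * b n := hcab n
          rw [this]; ring
      _ ≤ Real.sqrt (∑ n ∈ v.support, a n ^ 2) * Real.sqrt (∑ n ∈ v.support, (|v n| * b n) ^ 2)
          + |y| * r (δ (infPt p)) := by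
          gcongr
          exact Real.sum_mul_le_sqrt_mul_sqrt _ _ _
      _ ≤ Real.sqrt (∑' n, a n ^ 2) * ‖G x‖ + ‖G x‖ * r (δ (infPt p)) := by
          gcongr
          exact ha2.sum_le_tsum _ fun n _ => sq_nonneg _
      _ = M * ‖G x‖ := by rw [hM]; ring
  let M' : ℝ≥0 := ⟨M, hM0⟩
  let q : Seminorm ℝ L := M' • ((normSeminorm ℝ E2).comp G.toLinearMap)
  have hq : ∀ x, q x = M * ‖G x‖ := fun x => rfl
  refine ⟨q, ?_, ?_, ?_⟩
  · have : (q : L → ℝ) = fun x => M * ‖G x‖ := by funext x; exact hq x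
    rw [this]
    exact continuous_const.mul G.continuous.norm
  · refine ⟨(M ^ 2) • ((innerₗ E2).compl₁₂ G.toLinearMap G.toLinearMap), ?_, ?_, ?_⟩
    · intro x y
      show M ^ 2 * inner ℝ (G x) (G y) = M ^ 2 * inner ℝ (G y) (G x)
      rw [real_inner_comm]
    · intro x
      show 0 ≤ M ^ 2 * inner ℝ (G x) (G x)
      rw [real_inner_self_eq_norm_sq]
      positivity
    · intro x
      show q x = Real.sqrt (M ^ 2 * inner ℝ (G x) (G x))
      rw [real_inner_self_eq_norm_sq, ← mul_pow, Real.sqrt_sq (by positivity), hq]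
  · intro x
    show r x ≤ q x
    rw [hq]
    exact hest x

theorem multiHilbert_of_semiSel (h : IsFreeLCS (XSpace p) L δ) (hp : ∀ n, p ≠ pure n)
    (hS : SemiSel p) : IsMultiHilbert L := by
  have := h.locallyConvex
  refine ⟨{q : Seminorm ℝ L // Continuous q ∧ IsHilbertSeminorm q}, fun i => i.1,
    fun i => i.2.2, ?_⟩
  have hw := PolynormableSpace.withSeminorms ℝ L
  refine hw.congr ?_ ?_
  · intro i
    refine ⟨{⟨i.1, i.2.1⟩}, 1, ?_⟩
    rw [Finset.sup_singleton, one_smul]
    exact le_rfl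
  · intro i
    obtain ⟨q, hq1, hq2, hq3⟩ := exists_hilbert_ge h hp hS i.1 i.2
    refine ⟨{⟨q, hq1, hq2⟩}, 1, ?_⟩
    rw [Finset.sup_singleton, one_smul]
    exact hq3

end Free

/-! ### Semiselective ultrafilters are the rapid P-points -/

section Ultra

variable {p : Ultrafilter ℕ}

theorem compl_finite_mem (hp : ∀ n, p ≠ pure n) {T : Set ℕ} (hT : T.Finite) : Tᶜ ∈ p := by
  rw [Ultrafilter.compl_mem_iff_notMem]
  intro h
  obtain ⟨n, -, hn⟩ := Ultrafilter.eq_pure_of_finite_mem hT h
  exact hp n hn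

theorem semiSel_of_PPoint_rapid (h1 : IsPPoint p) (h2 : IsRapid p) : SemiSel p := by
  classical
  intro c hc0 hc
  obtain ⟨B, hB, hBf⟩ := h1 (fun k => {n | c n < (1/4 : ℝ) ^ k})
    (fun k => hc (Iio_mem_nhds (by positivity)))
  have hg : ∀ k, ∃ g : ℕ, ∀ n ∈ B, g ≤ n → c n < (1/4 : ℝ) ^ k := by
    intro k
    obtain ⟨g, hg⟩ := (hBf k).bddAbove
    refine ⟨g + 1, fun n hn hgn => ?_⟩
    by_contra hcon
    have : n ∈ B \ {n | c n < (1/4 : ℝ) ^ k} := ⟨hn, hcon⟩
    have := hg this
    omega
  choose g hg using hg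
  obtain ⟨C, hC, hCg⟩ := h2 g
  refine ⟨B ∩ C, inter_mem hB hC, ?_⟩
  apply summable_indicator_of_bound hc0 (∑' j : ℕ, (1/4 : ℝ) ^ j)
  intro S hS
  set J : ℕ → ℕ := fun n => (C ∩ Set.Iio n).ncard with hJ
  have hfin : ∀ n, (C ∩ Set.Iio n).Finite := fun n => (Set.finite_Iio n).inter_of_right C
  have hJmono : ∀ n ∈ C, ∀ m, n < m → J n + 1 ≤ (C ∩ Set.Iio m).ncard := by
    intro n hn m hnm
    have h3 : insert n (C ∩ Set.Iio n) ⊆ C ∩ Set.Iio m := by
      intro k hk
      rcases hk with rfl | ⟨hk1, hk2⟩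
      · exact ⟨hn, hnm⟩
      · exact ⟨hk1, lt_trans hk2 hnm⟩
    have h4 : (insert n (C ∩ Set.Iio n)).ncard = J n + 1 := by
      rw [Set.ncard_insert_of_notMem _ (hfin n)]
      intro hcon
      exact lt_irrefl n (Set.mem_Iio.1 hcon.2)
    rw [← h4]
    exact Set.ncard_le_ncard h3 (hfin m)
  have hle : ∀ n ∈ S, c n ≤ (1/4 : ℝ) ^ (J n) := by
    intro n hn
    have hnB := (hS n hn).1
    have hnC := (hS n hn).2
    apply (hg (J n) n hnB _).le
    by_contra hcon
    push Not at hcon
    have := hJmono n hnC _ hcon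
    have := hCg (J n)
    omega
  have hinj : Set.InjOn J S := by
    intro a ha b hb hab
    by_contra hne
    rcases lt_or_gt_of_ne hne with hlt | hlt
    · have := hJmono a (hS a ha).2 b hlt
      have h5 : (C ∩ Set.Iio b).ncard = J b := rfl
      omega
    · have := hJmono b (hS b hb).2 a hlt
      have h5 : (C ∩ Set.Iio a).ncard = J a := rfl
      omega
  have hsum4 : Summable fun j : ℕ => (1/4 : ℝ) ^ j :=
    summable_geometric_of_lt_one (by norm_num) (by norm_num)
  calc ∑ n ∈ S, c n ≤ ∑ n ∈ S, (1/4 : ℝ) ^ (J n) := Finset.sum_le_sum hle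
    _ = ∑ j ∈ S.image J, (1/4 : ℝ) ^ j := by
      rw [Finset.sum_image]
      exact hinj
    _ ≤ ∑' j : ℕ, (1/4 : ℝ) ^ j := hsum4.sum_le_tsum _ fun j _ => by positivity

/-- A weight built from a sequence of sets. -/
theorem exists_weight (D : ℕ → Set ℕ) (hD : ∀ k, (D k)ᶜ ∈ p) :
    ∃ c : ℕ → ℝ, (∀ n, 0 ≤ c n) ∧ Tendsto c p (𝓝 0) ∧ ∀ k, ∀ n ∈ D k, (1/2 : ℝ) ^ k ≤ c n := by
  classical
  set u : ℕ → ℕ → ℝ := fun n k => if n ∈ D k then (1/2 : ℝ) ^ k else 0 with hu
  have hu0 : ∀ n k, 0 ≤ u n k := by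
    intro n k
    simp only [hu]
    split_ifs <;> positivity
  have hule : ∀ n k, u n k ≤ (1/2 : ℝ) ^ k := by
    intro n k
    simp only [hu]
    split_ifs
    · exact le_rfl
    · positivity
  have hgeo : Summable fun k : ℕ => (1/2 : ℝ) ^ k :=
    summable_geometric_of_lt_one (by norm_num) (by norm_num)
  have hus : ∀ n, Summable (u n) := fun n =>
    Summable.of_nonneg_of_le (hu0 n) (hule n) hgeo
  refine ⟨fun n => ∑' k, u n k, fun n => tsum_nonneg (hu0 n), ?_, ?_⟩
  · have : (0 : ℝ) = ∑' k : ℕ, (0 : ℝ) := by simp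
    rw [this]
    refine tendsto_tsum_of_dominated_convergence hgeo ?_ ?_
    · intro k
      refine tendsto_const_nhds.congr' ?_
      filter_upwards [hD k] with n hn
      have : n ∉ D k := hn
      simp [hu, this]
    · filter_upwards with n k
      rw [Real.norm_eq_abs, abs_of_nonneg (hu0 n k)]
      exact hule n k
  · intro k n hn
    have h1 : u n k = (1/2 : ℝ) ^ k := by simp [hu, hn]
    rw [← h1]
    exact (hus n).le_tsum k fun j _ => hu0 n j

theorem PPoint_of_semiSel (h : SemiSel p) : IsPPoint p := by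
  intro A hA
  obtain ⟨c, hc0, hc, hcA⟩ := exists_weight (p := p) (fun k => (A k)ᶜ)
    (fun k => by simpa using hA k)
  obtain ⟨B, hB, hsum⟩ := h c hc0 hc
  refine ⟨B, hB, fun k => ?_⟩
  have h1 := hsum.tendsto_cofinite_zero
  have h2 : ∀ᶠ n in cofinite, B.indicator c n < (1/2 : ℝ) ^ k :=
    h1 (Iio_mem_nhds (by positivity))
  rw [eventually_cofinite] at h2
  refine h2.subset ?_
  intro n hn
  have h3 := hcA k n hn.2
  show ¬ (B.indicator c n < (1/2 : ℝ) ^ k)
  rw [Set.indicator_of_mem hn.1]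
  exact not_lt.2 h3

theorem rapid_of_semiSel (hp : ∀ n, p ≠ pure n) (h : SemiSel p) : IsRapid p := by
  classical
  intro f
  set f' : ℕ → ℕ := fun k => (Finset.range (2 ^ (k + 1))).sup f with hf'
  obtain ⟨c, hc0, hc, hcf⟩ := exists_weight (p := p) (fun k => Set.Iio (f' k))
    (fun k => compl_finite_mem hp (Set.finite_Iio _))
  obtain ⟨B, hB, hsum⟩ := h c hc0 hc
  obtain ⟨s, hs⟩ := summable_iff_vanishing_norm.1 hsum 1 one_pos
  refine ⟨B \ (s : Set ℕ), inter_mem hB (compl_finite_mem hp s.finite_toSet), ?_⟩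
  have key : ∀ k, ((B \ (s : Set ℕ)) ∩ Set.Iio (f' k)).ncard < 2 ^ k := by
    intro k
    have hfin : ((B \ (s : Set ℕ)) ∩ Set.Iio (f' k)).Finite :=
      (Set.finite_Iio _).inter_of_right _
    set t := hfin.toFinset with ht
    have ht1 : ((B \ (s : Set ℕ)) ∩ Set.Iio (f' k)).ncard = t.card := by
      rw [Set.ncard_eq_toFinset_card _ hfin]
    have hmem : ∀ n, n ∈ t ↔ (n ∈ B ∧ n ∉ s) ∧ n < f' k := by
      intro n
      rw [ht, Set.Finite.mem_toFinset]
      simp
    have hdisj : Disjoint t s := by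
      rw [Finset.disjoint_left]
      intro n hn
      exact ((hmem n).1 hn).1.2
    have h1 := hs t hdisj
    have h2 : ∑ n ∈ t, B.indicator c n = ∑ n ∈ t, c n := by
      refine Finset.sum_congr rfl fun n hn => ?_
      rw [Set.indicator_of_mem ((hmem n).1 hn).1.1]
    rw [h2, Real.norm_eq_abs, abs_of_nonneg (Finset.sum_nonneg fun n _ => hc0 n)] at h1
    have h3 : (t.card : ℝ) * (1/2) ^ k ≤ ∑ n ∈ t, c n := by
      rw [← nsmul_eq_mul]
      apply Finset.card_nsmul_le_sum
      intro n hn
      exact hcf k n ((hmem n).1 hn).2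
    have h4 : (t.card : ℝ) * (1/2) ^ k < 1 := lt_of_le_of_lt h3 h1
    rw [ht1]
    have h5 : (t.card : ℝ) < 2 ^ k := by
      have h6 : (0 : ℝ) < 2 ^ k := by positivity
      calc (t.card : ℝ) = (t.card : ℝ) * (1/2) ^ k * 2 ^ k := by
            rw [mul_assoc, ← mul_pow]; norm_num
        _ < 1 * 2 ^ k := by
            apply mul_lt_mul_of_pos_right h4 h6
        _ = 2 ^ k := one_mul _
    exact_mod_cast h5
  intro j
  have h1 : j < 2 ^ (Nat.log 2 j + 1) := Nat.lt_pow_succ_log_self (by norm_num) j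
  have h2 : f j ≤ f' (Nat.log 2 j) := by
    rw [hf']
    exact Finset.le_sup (f := f) (Finset.mem_range.2 h1)
  have h3 : ((B \ (s : Set ℕ)) ∩ Set.Iio (f j)).ncard ≤
      ((B \ (s : Set ℕ)) ∩ Set.Iio (f' (Nat.log 2 j))).ncard := by
    apply Set.ncard_le_ncard
    · intro n hn
      exact ⟨hn.1, lt_of_lt_of_le hn.2 h2⟩
    · exact (Set.finite_Iio _).inter_of_right _
  have h4 := key (Nat.log 2 j)
  rcases Nat.eq_zero_or_pos j with rfl | hj
  · simp at h4 h3 ⊢
    omega
  · have h5 : 2 ^ (Nat.log 2 j) ≤ j := Nat.pow_log_le_self 2 hj.ne'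
    omega

theorem semiSel_iff (hp : ∀ n, p ≠ pure n) : SemiSel p ↔ (IsPPoint p ∧ IsRapid p) :=
  ⟨fun h => ⟨PPoint_of_semiSel h, rapid_of_semiSel hp h⟩,
    fun h => semiSel_of_PPoint_rapid h.1 h.2⟩

/-- The dual filter of the summable ideal. -/
def summableFilter : Filter ℕ where
  sets := {A | Summable (Aᶜ.indicator fun n : ℕ => ((n : ℝ) + 1)⁻¹)}
  univ_sets := by
    show Summable ((Set.univ : Set ℕ)ᶜ.indicator fun n : ℕ => ((n : ℝ) + 1)⁻¹)
    rw [Set.compl_univ, Set.indicator_empty]
    exact summable_zero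
  sets_of_superset := by
    intro A B hA hAB
    refine Summable.of_nonneg_of_le (fun n => ?_) (fun n => ?_) hA
    · exact Set.indicator_nonneg (fun n _ => by positivity) _
    · apply Set.indicator_le_indicator_of_subset (Set.compl_subset_compl.2 hAB)
      intro n
      positivity
  inter_sets := by
    intro A B hA hB
    refine Summable.of_nonneg_of_le (fun n => ?_) (fun n => ?_) (Summable.add hA hB)
    · exact Set.indicator_nonneg (fun n _ => by positivity) _
    · have h0 : (0 : ℝ) ≤ ((n : ℝ) + 1)⁻¹ := by positivity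
      by_cases h1 : n ∈ A <;> by_cases h2 : n ∈ B <;> simp [h1, h2, h0]

theorem exists_not_semiSel : ∃ p : Ultrafilter ℕ, (∀ n, p ≠ pure n) ∧ ¬ SemiSel p := by
  have hharm : ¬ Summable fun n : ℕ => ((n : ℝ) + 1)⁻¹ := by
    intro h
    have h2 : Summable fun n : ℕ => (((n + 1 : ℕ) : ℝ))⁻¹ := by
      simpa using h
    exact Real.not_summable_natCast_inv
      ((summable_nat_add_iff (f := fun n : ℕ => ((n : ℝ))⁻¹) 1).1 h2)
  have hne : summableFilter.NeBot := by
    rw [Filter.neBot_iff]
    intro h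
    have : (∅ : Set ℕ) ∈ summableFilter := by rw [h]; trivial
    have h2 : Summable ((∅ : Set ℕ)ᶜ.indicator fun n : ℕ => ((n : ℝ) + 1)⁻¹) := this
    rw [Set.compl_empty, Set.indicator_univ] at h2
    exact hharm h2
  have hle : ((Ultrafilter.of summableFilter : Ultrafilter ℕ) : Filter ℕ) ≤ summableFilter :=
    Ultrafilter.of_le _
  set p := Ultrafilter.of summableFilter with hp
  have hcof : ∀ T : Set ℕ, T.Finite → Tᶜ ∈ p := by
    intro T hT
    apply hle
    show Summable (Tᶜᶜ.indicator fun n : ℕ => ((n : ℝ) + 1)⁻¹)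
    rw [compl_compl]
    apply summable_of_hasFiniteSupport
    exact hT.subset Set.support_indicator_subset
  have hfree : ∀ n, p ≠ pure n := by
    intro n hn
    have h1 := hcof {n} (Set.finite_singleton n)
    rw [hn] at h1
    exact (Ultrafilter.mem_pure.1 h1 : n ∈ ({n} : Set ℕ)ᶜ) rfl
  refine ⟨p, hfree, ?_⟩
  intro hS
  obtain ⟨A, hA, hsum⟩ := hS (fun n : ℕ => ((n : ℝ) + 1)⁻¹) (fun n => by positivity) (by
    have h1 : Tendsto (fun n : ℕ => ((n : ℝ) + 1)⁻¹) atTop (𝓝 0) := by
      simpa using tendsto_one_div_add_atTop_nhds_zero_nat (𝕜 := ℝ)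
    rw [← Nat.cofinite_eq_atTop] at h1
    refine h1.mono_left ?_
    intro U hU
    rw [mem_cofinite] at hU
    have := hcof _ hU
    rwa [compl_compl] at this)
  have h2 : Aᶜ ∈ p := by
    apply hle
    show Summable (Aᶜᶜ.indicator fun n : ℕ => ((n : ℝ) + 1)⁻¹)
    rwa [compl_compl]
  have h3 : (∅ : Set ℕ) ∈ p := by
    have := inter_mem hA h2
    rwa [Set.inter_compl_self] at this
  exact Ultrafilter.empty_notMem h3

end Ultra

/-! ### Existence of the free locally convex space -/

section Existence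

/-- The seminorms on `ℝ^(X)` that are continuous along `δ`. -/
abbrev SemIdx (p : Ultrafilter ℕ) : Type :=
  {r : Seminorm ℝ (XSpace p →₀ ℝ) //
    Tendsto (fun n => r (Finsupp.single (pt p n) 1 - Finsupp.single (infPt p) 1)) p (𝓝 0)}

def semFam (p : Ultrafilter ℕ) : SeminormFamily ℝ (XSpace p →₀ ℝ) (SemIdx p) := fun i => i.1

/-- The topology of `L(X)` on `ℝ^(X)`. -/
@[instance_reducible]
def freeTop (p : Ultrafilter ℕ) : TopologicalSpace (XSpace p →₀ ℝ) :=
  (semFam p).moduleFilterBasis.topology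

theorem free_exists (p : Ultrafilter ℕ) (hp : ∀ n, p ≠ pure n) :
    ∃ (L : Type) (_ : AddCommGroup L) (_ : Module ℝ L) (_ : TopologicalSpace L)
      (_ : IsTopologicalAddGroup L) (_ : ContinuousSMul ℝ L) (δ : XSpace p → L),
      IsFreeLCS (XSpace p) L δ := by
  classical
  let _ := freeTop p
  have hw : WithSeminorms (semFam p) := ⟨rfl⟩
  have i1 : IsTopologicalAddGroup (XSpace p →₀ ℝ) := hw.topologicalAddGroup
  have i2 : ContinuousSMul ℝ (XSpace p →₀ ℝ) := hw.continuousSMul
  have i3 : PolynormableSpace ℝ (XSpace p →₀ ℝ) := hw.toPolynormableSpace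
  have i4 : LocallyConvexSpace ℝ (XSpace p →₀ ℝ) := inferInstance
  -- separation
  have hT1 : T1Space (XSpace p →₀ ℝ) := by
    apply hw.T1_of_separating
    intro x hx
    by_cases h : ∃ n, x (pt p n) ≠ 0
    · obtain ⟨n, hn⟩ := h
      let r : Seminorm ℝ (XSpace p →₀ ℝ) :=
        (normSeminorm ℝ ℝ).comp (Finsupp.lapply (pt p n) : (XSpace p →₀ ℝ) →ₗ[ℝ] ℝ)
      have hr : ∀ x, r x = |x (pt p n)| := fun x => rfl
      refine ⟨⟨r, ?_⟩, ?_⟩
      · refine tendsto_const_nhds.congr' ?_
        filter_upwards [compl_finite_mem hp (Set.finite_singleton n)] with m hm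
        have hm' : m ≠ n := hm
        rw [hr, Finsupp.sub_apply, Finsupp.single_apply, Finsupp.single_apply,
          if_neg (fun h => hm' (pt_injective h)), if_neg (fun h => pt_ne_inf hp n h.symm)]
        simp
      · show r x ≠ 0
        rw [hr]
        exact abs_ne_zero.2 hn
    · push Not at h
      let s : (XSpace p →₀ ℝ) →ₗ[ℝ] ℝ := Finsupp.lsum ℝ (fun _ => LinearMap.id)
      let r : Seminorm ℝ (XSpace p →₀ ℝ) := (normSeminorm ℝ ℝ).comp s
      have hr : ∀ x, r x = |s x| := fun x => rfl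
      have hs : ∀ y, s (Finsupp.single y 1) = 1 := by
        intro y
        simp [s]
      have hx2 : x = Finsupp.single (infPt p) (x (infPt p)) := by
        ext y
        rcases XSpace.cases y with rfl | ⟨n, rfl⟩
        · simp
        · rw [h n, Finsupp.single_apply, if_neg (fun h => pt_ne_inf hp n h.symm)]
      refine ⟨⟨r, ?_⟩, ?_⟩
      · refine tendsto_const_nhds.congr fun n => ?_
        rw [hr, map_sub, hs, hs, sub_self, abs_zero]
      · show r x ≠ 0
        rw [hr, hx2]
        have : s (Finsupp.single (infPt p) (x (infPt p))) = x (infPt p) := by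
          simp [s]
        rw [this]
        apply abs_ne_zero.2
        intro h0
        apply hx
        rw [hx2, h0, Finsupp.single_zero]
  have i5 : T2Space (XSpace p →₀ ℝ) := inferInstance
  refine ⟨XSpace p →₀ ℝ, inferInstance, inferInstance, freeTop p, i1, i2,
    fun x => Finsupp.single x 1, i5, i4, ?_, ?_⟩
  · apply continuous_of_tendsto
    rw [hw.tendsto_nhds']
    intro t ε hε
    have : ∀ i ∈ t, ∀ᶠ n in (p : Filter ℕ), semFam p i
        (Finsupp.single (pt p n) 1 - Finsupp.single (infPt p) 1) < ε := by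
      intro i _
      exact i.2 (Iio_mem_nhds hε)
    rw [← Filter.eventually_all_finset] at this
    filter_upwards [this] with n hn
    exact Seminorm.finset_sup_apply_lt hε hn
  · intro E _ _ _ _ _ _ _ f hf
    have hE := PolynormableSpace.withSeminorms ℝ E
    let F : (XSpace p →₀ ℝ) →ₗ[ℝ] E := Finsupp.linearCombination ℝ f
    have hF1 : ∀ x, F (Finsupp.single x 1) = f x := by
      intro x
      simp [F]
    have hFc : Continuous F := by
      apply WithSeminorms.continuous_of_isBounded hw hE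
      intro i
      have hmem : Tendsto (fun n => ((i.1 : Seminorm ℝ E).comp F)
          (Finsupp.single (pt p n) 1 - Finsupp.single (infPt p) 1)) p (𝓝 0) := by
        have h1 : Tendsto (fun n => i.1 (f (pt p n) - f (infPt p))) p
            (𝓝 (i.1 (f (infPt p) - f (infPt p)))) := by
          apply (i.2.tendsto _).comp
          apply Tendsto.sub_const
          exact (hf.tendsto _).comp tendsto_pt
        rw [sub_self, map_zero] at h1
        refine h1.congr fun n => ?_
        rw [Seminorm.comp_apply, map_sub F, hF1, hF1]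
      refine ⟨{⟨(i.1 : Seminorm ℝ E).comp F, hmem⟩}, 1, ?_⟩
      rw [Finset.sup_singleton, one_smul]
      exact le_rfl
    refine ⟨⟨F, hFc⟩, hF1, ?_⟩
    intro G hG
    ext1 x
    have hG' : ∀ x, G (Finsupp.single x 1) = f x := hG
    show G x = F x
    induction x using Finsupp.induction_linear with
    | zero => simp
    | add x y hx hy => rw [map_add, map_add, hx, hy]
    | single x a =>
      have : (Finsupp.single x a : XSpace p →₀ ℝ) = a • Finsupp.single x 1 := by simp
      rw [this, map_smul, map_smul, hG', hF1]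

end Existence

/-- **Main theorem.** For every free ultrafilter `p` on `ℕ`, the free locally convex space `L(X)`
over `X = ℕ ∪ {p} ⊆ βℕ` exists, and it is nuclear iff it is multi-Hilbert iff `p` is a rapid
P-point. There are (in ZFC) free ultrafilters for which this fails. -/
theorem result :
    (∀ p : Ultrafilter ℕ, (∀ n, p ≠ pure n) →
      (∃ (L : Type) (_ : AddCommGroup L) (_ : Module ℝ L) (_ : TopologicalSpace L)
        (_ : IsTopologicalAddGroup L) (_ : ContinuousSMul ℝ L) (δ : XSpace p → L),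
        IsFreeLCS (XSpace p) L δ) ∧
      (∀ (L : Type) [AddCommGroup L] [Module ℝ L] [TopologicalSpace L]
        [IsTopologicalAddGroup L] [ContinuousSMul ℝ L] (δ : XSpace p → L),
        IsFreeLCS (XSpace p) L δ →
          (IsNuclearLCS L ↔ (IsPPoint p ∧ IsRapid p)) ∧
          (IsMultiHilbert L ↔ (IsPPoint p ∧ IsRapid p)))) ∧
    (∃ p : Ultrafilter ℕ, (∀ n, p ≠ pure n) ∧ ¬ (IsPPoint p ∧ IsRapid p)) := by
  refine ⟨fun p hp => ⟨free_exists p hp, ?_⟩, ?_⟩
  · intro L _ _ _ _ _ δ h
    rw [← semiSel_iff hp]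
    exact ⟨⟨semiSel_of_nuclear h hp, nuclear_of_semiSel h hp⟩,
      ⟨semiSel_of_multiHilbert h hp, multiHilbert_of_semiSel h hp⟩⟩
  · obtain ⟨p, hp, hn⟩ := exists_not_semiSel
    exact ⟨p, hp, fun h => hn ((semiSel_iff hp).2 h)⟩

end

end Pool.Agent.Results.MP_a34ed5_an.NuclearIffRapidPPoint
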